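import Mathlib
set_option autoImplicit false

/-!
Integral flows on bipartite graphs.
-/

namespace Pool.Agent.X321.GC

section flow

variable {V R C : Type*} [Fintype V] [DecidableEq R] [DecidableEq C]

/-- flows on the bipartite graph with the edges `v`, which join `ρ v` and `γ v` -/
def Flow (ρ : V → R) (γ : V → C) (n : V → ℚ) : Prop :=
  (∀ a, ∑ v ∈ Finset.univ.filter (fun v => ρ v = a), n v = 0) ∧
  ∀ b, ∑ v ∈ Finset.univ.filter (fun v => γ v = b), n v = 0

omit [Fintype V] in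
theorem two_card_image_le (F : Finset V) (ρ : V → R)
    (h : ∀ v ∈ F, ∃ w ∈ F, w ≠ v ∧ ρ w = ρ v) : 2 * (F.image ρ).card ≤ F.card := by
  classical
  rw [Finset.card_eq_sum_card_fiberwise (f := ρ) (t := F.image ρ)
    fun v hv => Finset.mem_image_of_mem _ hv, mul_comm, ← smul_eq_mul]
  refine Finset.card_nsmul_le_sum _ _ _ fun a ha => ?_
  obtain ⟨v, hv, rfl⟩ := Finset.mem_image.1 ha
  obtain ⟨w, hw, hne, he⟩ := h v hv
  have h1 : ({w, v} : Finset V) ⊆ F.filter fun u => ρ u = ρ v := by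
    intro u hu
    rcases Finset.mem_insert.1 hu with rfl | hu
    · exact Finset.mem_filter.2 ⟨hw, he⟩
    · rw [Finset.mem_singleton.1 hu]
      exact Finset.mem_filter.2 ⟨hv, rfl⟩
  exact (Finset.card_pair hne).symm.le.trans (Finset.card_le_card h1)

theorem exists_flow (F : Finset V) (ρ : V → R) (γ : V → C) (hF : F.Nonempty)
    (h1 : ∀ v ∈ F, ∃ w ∈ F, w ≠ v ∧ ρ w = ρ v) (h2 : ∀ v ∈ F, ∃ w ∈ F, w ≠ v ∧ γ w = γ v) :
    ∃ m : V → ℚ, m ≠ 0 ∧ Flow ρ γ m ∧ ∀ v, v ∉ F → m v = 0 := by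
  classical
  obtain ⟨v0, hv0⟩ := hF
  set RF := (F.image ρ).erase (ρ v0) with hRF
  set CF := F.image γ with hCF
  let L : (V → ℚ) →ₗ[ℚ] ((↥(Finset.univ \ F) → ℚ) × (↥RF → ℚ) × (↥CF → ℚ)) :=
    { toFun := fun x => (fun v => x v, fun a => ∑ v ∈ Finset.univ.filter (fun v => ρ v = a), x v,
        fun b => ∑ v ∈ Finset.univ.filter (fun v => γ v = b), x v)
      map_add' := fun x y => by
        refine Prod.ext rfl (Prod.ext (funext fun a => ?_) (funext fun b => ?_))
        · simp [Finset.sum_add_distrib]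
        · simp [Finset.sum_add_distrib]
      map_smul' := fun c x => by
        refine Prod.ext rfl (Prod.ext (funext fun a => ?_) (funext fun b => ?_))
        · simp [Finset.mul_sum]
        · simp [Finset.mul_sum] }
  have hc1 := two_card_image_le F ρ h1
  have hc2 := two_card_image_le F γ h2
  have hc5 : CF.card = (F.image γ).card := by
    rw [hCF]
  have hc3 : RF.card + 1 = (F.image ρ).card :=
    Finset.card_erase_add_one (Finset.mem_image_of_mem _ hv0)
  have hc4 : (Finset.univ \ F).card + F.card = Fintype.card V := by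
    rw [← Finset.card_univ]
    exact Finset.card_sdiff_add_card_eq_card (Finset.subset_univ _)
  have hlt : Module.finrank ℚ ((↥(Finset.univ \ F) → ℚ) × (↥RF → ℚ) × (↥CF → ℚ)) <
      Module.finrank ℚ (V → ℚ) := by
    rw [Module.finrank_prod, Module.finrank_prod, Module.finrank_fintype_fun_eq_card,
      Module.finrank_fintype_fun_eq_card, Module.finrank_fintype_fun_eq_card,
      Module.finrank_fintype_fun_eq_card, Fintype.card_coe, Fintype.card_coe, Fintype.card_coe]
    rw [← hc5] at hc2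
    omega
  obtain ⟨m, hm, hm0⟩ := (Submodule.ne_bot_iff _).1 (LinearMap.ker_ne_bot_of_finrank_lt hlt (f := L))
  rw [LinearMap.mem_ker] at hm
  have e1 : ∀ v, v ∉ F → m v = 0 := fun v hv =>
    congrFun (congrArg Prod.fst hm) ⟨v, Finset.mem_sdiff.2 ⟨Finset.mem_univ _, hv⟩⟩
  have e2 : ∀ a, a ≠ ρ v0 → ∑ v ∈ Finset.univ.filter (fun v => ρ v = a), m v = 0 := by
    intro a ha
    by_cases h : a ∈ F.image ρ
    · exact congrFun (congrArg (fun z => z.2.1) hm) ⟨a, Finset.mem_erase.2 ⟨ha, h⟩⟩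
    · refine Finset.sum_eq_zero fun v hv => e1 v fun hvF => h ?_
      rw [← (Finset.mem_filter.1 hv).2]
      exact Finset.mem_image_of_mem _ hvF
  have e3 : ∀ b, ∑ v ∈ Finset.univ.filter (fun v => γ v = b), m v = 0 := by
    intro b
    by_cases h : b ∈ F.image γ
    · exact congrFun (congrArg (fun z => z.2.2) hm) ⟨b, h⟩
    · refine Finset.sum_eq_zero fun v hv => e1 v fun hvF => h ?_
      rw [← (Finset.mem_filter.1 hv).2]
      exact Finset.mem_image_of_mem _ hvF
  have e4 : ∑ v, m v = 0 := by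
    rw [← Finset.sum_fiberwise_of_maps_to (s := Finset.univ) (t := Finset.univ.image γ) (g := γ)
      fun v _ => Finset.mem_image_of_mem _ (Finset.mem_univ v)]
    exact Finset.sum_eq_zero fun b _ => e3 b
  have e5 : ∑ v ∈ Finset.univ.filter (fun v => ρ v = ρ v0), m v = 0 := by
    rw [← e4, ← Finset.sum_fiberwise_of_maps_to (s := Finset.univ) (t := Finset.univ.image ρ)
      (g := ρ) fun v _ => Finset.mem_image_of_mem _ (Finset.mem_univ v),
      Finset.sum_eq_single (ρ v0)]
    · intro a _ ha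
      exact e2 a ha
    · intro h
      exact absurd (Finset.mem_image_of_mem _ (Finset.mem_univ v0)) h
  refine ⟨m, hm0, ⟨fun a => ?_, e3⟩, e1⟩
  by_cases ha : a = ρ v0
  · rw [ha]
    exact e5
  · exact e2 a ha

theorem exists_other {V T : Type*} [Fintype V] [DecidableEq T] {n : V → ℚ} {G : AddSubgroup ℚ}
    {F : Finset V} (hmem : ∀ v, v ∈ F ↔ n v ∉ G) (τ : V → T)
    (hτ : ∀ a, ∑ v ∈ Finset.univ.filter (fun v => τ v = a), n v = 0) (u : V) (hu : u ∈ F) :
    ∃ w ∈ F, w ≠ u ∧ τ w = τ u := by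
  classical
  by_contra hcon
  push Not at hcon
  apply (hmem u).1 hu
  have h1 := hτ (τ u)
  have h2 : u ∈ Finset.univ.filter fun v => τ v = τ u :=
    Finset.mem_filter.2 ⟨Finset.mem_univ u, rfl⟩
  rw [← Finset.add_sum_erase _ _ h2] at h1
  rw [eq_neg_of_add_eq_zero_left h1]
  refine G.neg_mem (G.sum_mem fun w hw => ?_)
  by_contra hw2
  exact hcon w ((hmem w).2 hw2) (Finset.ne_of_mem_erase hw)
    (Finset.mem_filter.1 (Finset.mem_of_mem_erase hw)).2

/-- A flow which is integral on a set `S`, such that no other flow vanishes on `S`, is integral. -/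
theorem integral_of_integral_on {ρ : V → R} {γ : V → C} {S : Set V}
    (hS : ∀ m, Flow ρ γ m → (∀ v ∈ S, m v = 0) → m = 0) {n : V → ℚ} (hn : Flow ρ γ n)
    (hi : ∀ v ∈ S, ∃ z : ℤ, n v = z) (v : V) : ∃ z : ℤ, n v = z := by
  classical
  by_contra hv
  set G : AddSubgroup ℚ := (Int.castAddHom ℚ).range with hG
  have hGm : ∀ q : ℚ, q ∈ G ↔ ∃ z : ℤ, q = z := by
    intro q
    constructor
    · rintro ⟨z, rfl⟩
      exact ⟨z, rfl⟩
    · rintro ⟨z, rfl⟩
      exact ⟨z, rfl⟩
  set F : Finset V := Finset.univ.filter fun v => ¬ n v ∈ G with hF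
  have hmem : ∀ v, v ∈ F ↔ n v ∉ G := fun v => by
    rw [hF, Finset.mem_filter]
    exact ⟨fun h => h.2, fun h => ⟨Finset.mem_univ _, h⟩⟩
  obtain ⟨m, hm0, hm, hmF⟩ := exists_flow F ρ γ ⟨v, (hmem v).2 fun h => hv ((hGm _).1 h)⟩
    (exists_other hmem ρ hn.1) (exists_other hmem γ hn.2)
  refine hm0 (hS m hm fun u hu => hmF u fun hu2 => ?_)
  exact (hmem u).1 hu2 ((hGm _).2 (hi u hu))

end flow

section basis

variable {V R C : Type*} [Fintype V] [DecidableEq R] [DecidableEq C] {ρ : V → R} {γ : V → C}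

theorem flow_add {a b : V → ℚ} (ha : Flow ρ γ a) (hb : Flow ρ γ b) : Flow ρ γ (a + b) := by
  refine ⟨fun x => ?_, fun x => ?_⟩
  · simp only [Pi.add_apply, Finset.sum_add_distrib, ha.1 x, hb.1 x, add_zero]
  · simp only [Pi.add_apply, Finset.sum_add_distrib, ha.2 x, hb.2 x, add_zero]

theorem flow_smul (c : ℚ) {a : V → ℚ} (ha : Flow ρ γ a) : Flow ρ γ (c • a) := by
  refine ⟨fun x => ?_, fun x => ?_⟩
  · simp only [Pi.smul_apply, ← Finset.smul_sum, ha.1 x, smul_zero]
  · simp only [Pi.smul_apply, ← Finset.smul_sum, ha.2 x, smul_zero]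

/-- the space of the flows -/
def flows (ρ : V → R) (γ : V → C) : Submodule ℚ (V → ℚ) where
  carrier := {n | Flow ρ γ n}
  zero_mem' := ⟨fun _ => by simp, fun _ => by simp⟩
  add_mem' := flow_add
  smul_mem' c _ := flow_smul c

/-- the values on `S` -/
noncomputable def resS (ρ : V → R) (γ : V → C) {d : ℕ} (S : Fin d → V) :
    flows ρ γ →ₗ[ℚ] (Fin d → ℚ) where
  toFun n l := (n : V → ℚ) (S l)
  map_add' _ _ := rfl
  map_smul' _ _ := rfl

/-- `B` is a basis of the lattice of the integral flows (its length is the rank) -/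
def IsLat (ρ : V → R) (γ : V → C) {d : ℕ} (B : Fin d → V → ℤ) : Prop :=
  (∀ m, Flow ρ γ fun v => (B m v : ℚ)) ∧
  ∀ n : V → ℤ, (Flow ρ γ fun v => (n v : ℚ)) → ∃ c : Fin d → ℤ, ∀ v, n v = ∑ m, c m * B m v

theorem exists_dual {d : ℕ} (hd : Module.finrank ℚ (flows ρ γ) = d) {S : Fin d → V}
    (hS : ∀ m, Flow ρ γ m → (∀ l, m (S l) = 0) → m = 0) (f : Fin d → ℤ) :
    ∃ n : V → ℤ, (Flow ρ γ fun v => (n v : ℚ)) ∧ ∀ l, n (S l) = f l := by
  have hinj : Function.Injective (resS ρ γ S) := by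
    rw [← LinearMap.ker_eq_bot, LinearMap.ker_eq_bot']
    intro n hn
    exact Subtype.ext (hS n n.2 fun l => congrFun hn l)
  have hsurj : Function.Surjective (resS ρ γ S) := by
    refine (LinearMap.injective_iff_surjective_of_finrank_eq_finrank ?_).1 hinj
    rw [hd, Module.finrank_fin_fun]
  obtain ⟨n, hn⟩ := hsurj fun l => (f l : ℚ)
  have hn' : ∀ l, (n : V → ℚ) (S l) = f l := fun l => congrFun hn l
  have h1 := integral_of_integral_on (ρ := ρ) (γ := γ) (S := Set.range S)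
    (fun m hm h => hS m hm fun l => h _ ⟨l, rfl⟩) n.2 (by
      rintro _ ⟨l, rfl⟩
      exact ⟨f l, hn' l⟩)
  choose z hz using h1
  refine ⟨z, ?_, fun l => ?_⟩
  · have e : (fun v => (z v : ℚ)) = (n : V → ℚ) := funext fun v => (hz v).symm
    rw [e]
    exact n.2
  · have := hn' l
    rw [hz] at this
    exact_mod_cast this

theorem abs_det_one {d : ℕ} (hd : Module.finrank ℚ (flows ρ γ) = d) {S : Fin d → V}
    (hS : ∀ m, Flow ρ γ m → (∀ l, m (S l) = 0) → m = 0) {B : Fin d → V → ℤ}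
    (hB : IsLat ρ γ B) : |(Matrix.of fun l m => B m (S l)).det| = 1 := by
  choose n hn1 hn2 using fun l : Fin d => exists_dual hd hS (Pi.single l 1)
  choose c hc using fun l => hB.2 (n l) (hn1 l)
  have h : (Matrix.of fun l m => B m (S l)) * (Matrix.of fun m l => c l m) = 1 := by
    ext l l'
    rw [Matrix.mul_apply]
    have h1 := hc l' (S l)
    rw [hn2] at h1
    rw [Matrix.one_apply, Finset.sum_congr rfl fun m _ => mul_comm _ _]
    refine h1.symm.trans ?_
    rw [Pi.single_apply]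
  have h2 := congrArg Matrix.det h
  rw [Matrix.det_mul, Matrix.det_one] at h2
  exact Int.isUnit_iff_abs_eq.1 (IsUnit.of_mul_eq_one _ h2)

theorem exists_den {V : Type*} [Fintype V] (n : V → ℚ) :
    ∃ N : ℕ, N ≠ 0 ∧ ∃ z : V → ℤ, ∀ v, (z v : ℚ) = N * n v := by
  classical
  refine ⟨∏ v, (n v).den, Finset.prod_ne_zero_iff.2 fun v _ => (n v).den_ne_zero,
    fun v => (∏ u ∈ Finset.univ.erase v, ((n u).den : ℤ)) * (n v).num, fun v => ?_⟩
  rw [← Finset.mul_prod_erase _ _ (Finset.mem_univ v)]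
  push_cast
  have h := Rat.mul_den_eq_num (n v)
  rw [← h]
  ring

theorem det_zero {d : ℕ} {S : Fin d → V}
    (hS : ¬ ∀ m, Flow ρ γ m → (∀ l, m (S l) = 0) → m = 0) {B : Fin d → V → ℤ}
    (hB : IsLat ρ γ B) : (Matrix.of fun l m => B m (S l)).det = 0 := by
  push Not at hS
  obtain ⟨m, hm, hmS, hm0⟩ := hS
  obtain ⟨N, hN, z, hz⟩ := exists_den m
  have hzf : Flow ρ γ fun v => (z v : ℚ) := by
    have e : (fun v => (z v : ℚ)) = (N : ℚ) • m := funext fun v => hz v
    rw [e]
    exact flow_smul _ hm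
  obtain ⟨c, hc⟩ := hB.2 z hzf
  rw [← Matrix.exists_mulVec_eq_zero_iff]
  refine ⟨c, fun h0 => hm0 ?_, ?_⟩
  · funext v
    have h1 := hc v
    rw [h0] at h1
    simp only [Pi.zero_apply, zero_mul, Finset.sum_const_zero] at h1
    have h2 := hz v
    rw [h1, Int.cast_zero] at h2
    exact (mul_eq_zero.1 h2.symm).resolve_left (Nat.cast_ne_zero.2 hN)
  · funext l
    have h1 := hc (S l)
    have h2 := hz (S l)
    rw [hmS, mul_zero] at h2
    have h3 : z (S l) = 0 := by exact_mod_cast h2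
    rw [h3] at h1
    show ∑ m, B m (S l) * c m = 0
    rw [h1]
    exact Finset.sum_congr rfl fun m _ => mul_comm _ _

/-- two bases of the lattice -/
theorem exists_change {d : ℕ} {B B' : Fin d → V → ℤ} (hB : IsLat ρ γ B) (hB' : IsLat ρ γ B')
    (hi : ∀ c : Fin d → ℤ, (∀ v, ∑ m, c m * B m v = 0) → c = 0) :
    ∃ U : Matrix (Fin d) (Fin d) ℤ, |U.det| = 1 ∧ ∀ m v, B' m v = ∑ j, B j v * U j m := by
  choose a ha using fun m => hB.2 (B' m) (hB'.1 m)
  choose b hb using fun m => hB'.2 (B m) (hB.1 m)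
  refine ⟨Matrix.of fun j m => a m j, ?_, fun m v => (ha m v).trans
    (Finset.sum_congr rfl fun j _ => mul_comm _ _)⟩
  have h : (Matrix.of fun j m => a m j) * (Matrix.of fun j m => b m j) = 1 := by
    ext i m
    have h1 : (fun i => ∑ j, b m j * a j i - (if i = m then 1 else 0)) = (0 : Fin d → ℤ) := by
      refine hi _ fun v => ?_
      simp only [sub_mul, Finset.sum_sub_distrib, Finset.sum_mul, ite_mul, one_mul, zero_mul,
        Finset.sum_ite_eq', Finset.mem_univ, if_true]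
      rw [sub_eq_zero, Finset.sum_comm]
      refine Eq.trans ?_ (hb m v).symm
      refine Finset.sum_congr rfl fun j _ => ?_
      rw [ha j v, Finset.mul_sum]
      exact Finset.sum_congr rfl fun i _ => by ring
    have h2 := congrFun h1 i
    rw [Matrix.mul_apply, Matrix.one_apply]
    simp only [Pi.zero_apply, sub_eq_zero] at h2
    rw [← h2]
    exact Finset.sum_congr rfl fun j _ => mul_comm _ _
  have h2 := congrArg Matrix.det h
  rw [Matrix.det_mul, Matrix.det_one] at h2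
  exact Int.isUnit_iff_abs_eq.1 (IsUnit.of_mul_eq_one _ h2)

end basis

end Pool.Agent.X321.GC
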