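import Pool.Agent.X321.GC.Tor
set_option autoImplicit false

/-!
The regulators of a basis of the lattice of the integral admissible matrices.
-/

namespace Pool.Agent.X321.GC

open Pool.Agent.Y797.GC

open Pool.Agent.TH826.MK (KQ symb Torus)

open Pool.Agent.X321.BL (abs_det_near)

open Polynomial (C X)

section near

theorem exists_le_all {ι : Type*} [Finite ι] (δ : ι → ℝ) (h : ∀ i, 0 < δ i) :
    ∃ δ0 : ℝ, 0 < δ0 ∧ ∀ i, δ0 ≤ δ i := by
  rcases isEmpty_or_nonempty ι with h1 | h1
  · exact ⟨1, one_pos, fun i => isEmptyElim i⟩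
  · obtain ⟨i0, hi0⟩ := Finite.exists_min δ
    exact ⟨δ i0, h i0, hi0⟩

theorem exists_near {V : Type*} [Fintype V] [DecidableEq V] {d : ℕ} (B0 : Fin d → V → ℤ) {ε : ℝ}
    (hε : 0 < ε) : ∃ δ : ℝ, 0 < δ ∧ ∀ T : V → V → ℝ,
      (∀ v v', |T v v' - (if v' = v then 2 * Real.pi else 0)| ≤ δ) → ∀ S : Fin d → V,
      |(Matrix.of fun l m => ∑ v', (B0 m v' : ℝ) * T (S l) v').det -
        (Matrix.of fun l m => 2 * Real.pi * (B0 m (S l) : ℝ)).det| < ε := by
  classical
  choose δ hδ h using fun S : Fin d → V =>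
    abs_det_near (Matrix.of fun l m => 2 * Real.pi * (B0 m (S l) : ℝ)) hε
  obtain ⟨δ0, hδ0, hle⟩ := exists_le_all δ hδ
  set s : ℝ := ∑ m, ∑ v, |(B0 m v : ℝ)| with hs
  have hs0 : 0 ≤ s := Finset.sum_nonneg fun m _ => Finset.sum_nonneg fun v _ => abs_nonneg _
  have hsm : ∀ m, ∑ v, |(B0 m v : ℝ)| ≤ s := fun m =>
    Finset.single_le_sum (f := fun m => ∑ v, |(B0 m v : ℝ)|)
      (fun m _ => Finset.sum_nonneg fun v _ => abs_nonneg _) (Finset.mem_univ m)
  refine ⟨δ0 / (2 * (s + 1)), by positivity, fun T hT S => h S _ fun l m => ?_⟩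
  rw [Matrix.of_apply, Matrix.of_apply]
  have e1 : 2 * Real.pi * (B0 m (S l) : ℝ) =
      ∑ v', (B0 m v' : ℝ) * (if v' = S l then 2 * Real.pi else 0) := by
    rw [Finset.sum_eq_single (S l)]
    · rw [if_pos rfl, mul_comm]
    · intro v _ hv
      rw [if_neg hv, mul_zero]
    · intro h
      exact absurd (Finset.mem_univ _) h
  rw [e1, ← Finset.sum_sub_distrib]
  calc |∑ v', ((B0 m v' : ℝ) * T (S l) v' - (B0 m v' : ℝ) *
        (if v' = S l then 2 * Real.pi else 0))| ≤
        ∑ v', |(B0 m v' : ℝ)| * (δ0 / (2 * (s + 1))) := by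
        refine (Finset.abs_sum_le_sum_abs _ _).trans (Finset.sum_le_sum fun v _ => ?_)
        rw [← mul_sub, abs_mul]
        exact mul_le_mul_of_nonneg_left (hT _ _) (abs_nonneg _)
    _ = (∑ v', |(B0 m v' : ℝ)|) * (δ0 / (2 * (s + 1))) := by rw [Finset.sum_mul]
    _ ≤ s * (δ0 / (2 * (s + 1))) := mul_le_mul_of_nonneg_right (hsm m) (by positivity)
    _ < δ0 := by
        rw [← mul_div_assoc, div_lt_iff₀ (by positivity)]
        nlinarith
    _ ≤ δ S := hle S

end near

section adm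

variable {K : Type*} [Field K] {r p : ℕ} (A : Arr K r p)

/-- A basis of the lattice of the integral admissible matrices: its length is the dimension of the
space of the admissible matrices, and every integral admissible matrix is a linear combination of its
elements with integral coefficients. -/
def IsLatticeBasis (B : Fin A.dim → Fin (r + 1) → Fin p → ℤ) : Prop :=
  (∀ m, A.IsAdm fun i k => (B m i k : ℚ)) ∧
  ∀ n : Fin (r + 1) → Fin p → ℤ, A.IsAdm (fun i k => (n i k : ℚ)) →
    ∃ c : Fin A.dim → ℤ, ∀ i k, n i k = ∑ m, c m * B m i k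

/-- Only one admissible matrix vanishes at the places `S`, the zero matrix. -/
def Cotree (S : Fin A.dim → Fin (r + 1) × Fin p) : Prop :=
  ∀ n, A.IsAdm n → (∀ l, n (S l).1 (S l).2 = 0) → n = 0

open Classical in
theorem flow_iff (n : Fin (r + 1) → Fin p → ℚ) :
    Flow (fun v : Fin (r + 1) × Fin p => v.1) (fun v => (v.2, key A v.2 v.1))
      (fun v => n v.1 v.2) ↔ A.IsAdm n := by
  have hrow : ∀ i, ∑ v ∈ Finset.univ.filter (fun v : Fin (r + 1) × Fin p => v.1 = i),
      n v.1 v.2 = ∑ k, n i k := by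
    intro i
    rw [Finset.sum_filter, Fintype.sum_prod_type, Finset.sum_eq_single i]
    · simp
    · intro j _ hj
      simp [hj]
    · intro h
      exact absurd (Finset.mem_univ _) h
  have hcol : ∀ (k : Fin p) (z : K), ∑ v ∈ Finset.univ.filter
      (fun v : Fin (r + 1) × Fin p => (v.2, key A v.2 v.1) = (k, z)),
      n v.1 v.2 = ∑ i ∈ Finset.univ.filter (fun i => key A k i = z), n i k := by
    intro k z
    rw [Finset.sum_filter, Fintype.sum_prod_type_right, Finset.sum_eq_single k]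
    · rw [Finset.sum_filter]
      refine Finset.sum_congr rfl fun i _ => ?_
      simp
    · intro l _ hl
      simp [hl]
    · intro h
      exact absurd (Finset.mem_univ _) h
  constructor
  · rintro ⟨h1, h2⟩
    have h3 : ∀ k z, ∑ i ∈ Finset.univ.filter (fun i => key A k i = z), n i k = 0 := fun k z => by
      rw [← hcol]
      exact h2 (k, z)
    refine ⟨fun i => by rw [← hrow]; exact h1 i, fun k => ?_, fun k hk z => ?_⟩
    · have h4 := Finset.sum_fiberwise_of_maps_to (s := Finset.univ) (t := vts A k)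
        (g := key A k) (fun i hi => Finset.mem_image_of_mem _ hi) (fun i => n i k)
      rw [← h4]
      exact Finset.sum_eq_zero fun z _ => h3 k z
    · have h4 := h3 k z
      unfold key at h4
      simp only [if_pos hk] at h4
      exact h4
  · rintro ⟨h1, h2, h3⟩
    refine ⟨fun i => by rw [hrow]; exact h1 i, fun ⟨k, z⟩ => ?_⟩
    rw [hcol]
    by_cases hk : A.nu k = 0
    · have h4 := h3 k hk z
      unfold key
      simp only [if_pos hk]
      exact h4
    · unfold key
      simp only [if_neg hk]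
      by_cases hz : (0 : K) = z
      · simp only [hz, Finset.filter_true]
        exact h2 k
      · simp only [hz, Finset.filter_false, Finset.sum_empty]

open Classical in
theorem finrank_flows : Module.finrank ℚ (flows (fun v : Fin (r + 1) × Fin p => v.1)
    (fun v => (v.2, key A v.2 v.1))) = A.dim := by
  unfold Arr.dim
  refine LinearEquiv.finrank_eq (LinearEquiv.ofSubmodules
    (LinearEquiv.curry ℚ ℚ (Fin (r + 1)) (Fin p)) _ _ ?_)
  ext n
  rw [Submodule.mem_map_equiv]
  exact flow_iff A n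

variable {A}

open Classical in
theorem IsLatticeBasis.isLat {B : Fin A.dim → Fin (r + 1) → Fin p → ℤ} (hB : IsLatticeBasis A B) :
    IsLat (fun v : Fin (r + 1) × Fin p => v.1) (fun v => (v.2, key A v.2 v.1))
      (fun m v => B m v.1 v.2) := by
  refine ⟨fun m => (flow_iff A _).2 (hB.1 m), fun n hn => ?_⟩
  obtain ⟨c, hc⟩ := hB.2 (fun i k => n (i, k)) ((flow_iff A fun i k => (n (i, k) : ℚ)).1 hn)
  exact ⟨c, fun v => hc v.1 v.2⟩

theorem abs_det_one' {S : Fin A.dim → Fin (r + 1) × Fin p} (hS : Cotree A S)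
    {B : Fin A.dim → Fin (r + 1) → Fin p → ℤ} (hB : IsLatticeBasis A B) :
    |(Matrix.of fun l m => B m (S l).1 (S l).2).det| = 1 := by
  classical
  refine abs_det_one (finrank_flows A) (S := S) (fun m hm h => ?_) hB.isLat
  have h1 := hS (fun i k => m (i, k)) ((flow_iff A fun i k => m (i, k)).1 hm) h
  funext v
  exact congrFun (congrFun h1 v.1) v.2

theorem det_zero' {S : Fin A.dim → Fin (r + 1) × Fin p} (hS : ¬ Cotree A S)
    {B : Fin A.dim → Fin (r + 1) → Fin p → ℤ} (hB : IsLatticeBasis A B) :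
    (Matrix.of fun l m => B m (S l).1 (S l).2).det = 0 := by
  classical
  refine det_zero (S := S) (fun h => hS fun n hn hl => ?_) hB.isLat
  have h1 := h (fun v => n v.1 v.2) ((flow_iff A n).2 hn) hl
  funext i k
  exact congrFun h1 (i, k)

variable (A)

theorem exists_cotree : ∃ S : Fin A.dim → Fin (r + 1) × Fin p, Cotree A S := by
  classical
  set B0 : Module.Basis (Fin A.dim) ℚ A.Adm := Module.finBasis ℚ A.Adm with hB0
  set V : Matrix (Fin A.dim) (Fin (r + 1) × Fin p) ℚ := Matrix.of fun m ik =>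
    (B0 m : Fin (r + 1) → Fin p → ℚ) ik.1 ik.2 with hV
  have hVl : LinearIndependent ℚ V.row := by
    have h1 : LinearIndependent ℚ fun m => (B0 m : Fin (r + 1) → Fin p → ℚ) :=
      B0.linearIndependent.map' A.Adm.subtype (Submodule.ker_subtype _)
    have h2 := h1.map' (LinearEquiv.curry ℚ ℚ (Fin (r + 1)) (Fin p)).symm.toLinearMap
      (LinearEquiv.ker _)
    exact h2
  obtain ⟨e, he⟩ := exists_minor V hVl
  refine ⟨e, fun n hn hl => ?_⟩
  set c := B0.repr ⟨n, hn⟩ with hc
  have h1 : ∀ i k, n i k = ∑ m, c m * (B0 m : Fin (r + 1) → Fin p → ℚ) i k := by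
    intro i k
    have h2 := congrArg (fun x : A.Adm => (x : Fin (r + 1) → Fin p → ℚ) i k)
      (B0.sum_repr ⟨n, hn⟩)
    simp only [Submodule.coe_sum, Finset.sum_apply] at h2
    rw [← h2]
    rfl
  have h2 : Matrix.vecMul (fun m => c m) (V.submatrix id e) = 0 := by
    funext l
    have h3 := h1 (e l).1 (e l).2
    rw [hl] at h3
    exact h3.symm
  have h3 : (fun m => c m) = 0 := by
    by_contra hne
    exact he (Matrix.exists_vecMul_eq_zero_iff.1 ⟨_, hne, h2⟩)
  funext i k
  rw [h1]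
  refine Finset.sum_eq_zero fun m _ => ?_
  rw [congrFun h3 m]
  exact zero_mul _

theorem exists_latticeBasis : ∃ B, IsLatticeBasis A B := by
  classical
  obtain ⟨S, hS⟩ := exists_cotree A
  have hS' : ∀ m, Flow (fun v : Fin (r + 1) × Fin p => v.1)
      (fun v => (v.2, key A v.2 v.1)) m → (∀ l, m (S l) = 0) → m = 0 := by
    intro m hm h
    have h1 := hS (fun i k => m (i, k)) ((flow_iff A fun i k => m (i, k)).1 hm) h
    funext v
    exact congrFun (congrFun h1 v.1) v.2
  choose n hn1 hn2 using fun l : Fin A.dim =>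
    exists_dual (finrank_flows A) (S := S) hS' (Pi.single l 1)
  refine ⟨fun m i k => n m (i, k), fun m =>
    (flow_iff A fun i k => (n m (i, k) : ℚ)).1 (hn1 m), fun x hx => ?_⟩
  refine ⟨fun l => x (S l).1 (S l).2, ?_⟩
  have h2 : A.IsAdm (fun i k => (x i k : ℚ) - ∑ m, (x (S m).1 (S m).2 : ℚ) * n m (i, k)) := by
    have h3 : (fun i k => ∑ m, (x (S m).1 (S m).2 : ℚ) * n m (i, k)) ∈ A.Adm := by
      have e : (fun i k => ∑ m, (x (S m).1 (S m).2 : ℚ) * n m (i, k)) =
          ∑ m, (x (S m).1 (S m).2 : ℚ) • (fun i k => (n m (i, k) : ℚ)) := by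
        funext i k
        simp [Finset.sum_apply]
      rw [e]
      exact A.Adm.sum_mem fun m _ => A.Adm.smul_mem _
        ((flow_iff A fun i k => (n m (i, k) : ℚ)).1 (hn1 m))
    exact A.Adm.sub_mem (x := fun i k => (x i k : ℚ)) hx h3
  have h4 := hS _ h2 fun l => by
    rw [sub_eq_zero]
    have h5 : ∀ m, (n m ((S l).1, (S l).2) : ℚ) = if l = m then 1 else 0 := by
      intro m
      have h6 := hn2 m l
      rw [Pi.single_apply] at h6
      have h7 : n m ((S l).1, (S l).2) = if l = m then 1 else 0 := h6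
      rw [h7]
      split_ifs <;> simp
    simp [h5]
  intro i k
  have h5 := congrFun (congrFun h4 i) k
  simp only [Pi.zero_apply, sub_eq_zero] at h5
  exact_mod_cast h5

end adm

section main

variable {K : Type*} [Field K] {r p : ℕ} {A : Arr K r p}

theorem reg_cl {lam : K} (Γ : Torus (A.Open lam) 1) (n : Fin (r + 1) → Fin p → ℚ) :
    Γ.reg (A.cl lam n) =
      ∑ v : Fin (r + 1) × Fin p, (n v.1 v.2 : ℝ) * Γ.reg (symb ![A.uy lam v.1, A.ux lam v.2]) := by
  unfold Arr.cl
  rw [map_sum, Fintype.sum_prod_type]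
  refine Finset.sum_congr rfl fun i _ => ?_
  rw [map_sum]
  refine Finset.sum_congr rfl fun k _ => ?_
  rw [map_smul, Rat.smul_def]

theorem exists_tori_limit (σ : K →+* ℂ) (hphi : Function.Injective A.phi)
    (hrho : Function.Injective A.rho)
    (hg : ∀ i k, (A.g.eval (A.phi i)).eval (A.rho k) ≠ 0) {ε : ℝ} (hε : 0 < ε) :
    ∃ Λ : ℝ, 1 < Λ ∧ ∀ lam : K, Λ ≤ ‖σ lam‖ →
      ∃ Γ : Fin (r + 1) → Fin p → Torus (A.Open lam) 1,
        (∀ i k θ x, (Γ i k).e θ (A.toO lam (C (C x))) = σ x) ∧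
        (∀ i k (n : Fin (r + 1) → Fin p → ℚ),
          |(Γ i k).reg (A.cl lam n) / Real.log ‖σ lam‖ + 2 * Real.pi * (n i k : ℝ)| ≤
            ε * ∑ j, ∑ l, |(n j l : ℝ)|) ∧
        ∀ B, IsLatticeBasis A B → ∀ S : Fin A.dim → Fin (r + 1) × Fin p,
          (Cotree A S → |(|(Matrix.of fun l m => (Γ (S l).1 (S l).2).reg
            (A.cl lam fun i k => (B m i k : ℚ))).det| /
            (2 * Real.pi * Real.log ‖σ lam‖) ^ A.dim) - 1| ≤ ε) ∧
          (¬ Cotree A S → |(Matrix.of fun l m => (Γ (S l).1 (S l).2).reg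
            (A.cl lam fun i k => (B m i k : ℚ))).det| /
            (2 * Real.pi * Real.log ‖σ lam‖) ^ A.dim ≤ ε) := by
  classical
  obtain ⟨B0, hB0⟩ := exists_latticeBasis A
  have hpi := Real.pi_pos
  have hpd : 0 < (2 * Real.pi) ^ A.dim := by positivity
  obtain ⟨δ, hδ, hdet⟩ := exists_near (V := Fin (r + 1) × Fin p) (fun m v => B0 m v.1 v.2)
    (ε := ε * (2 * Real.pi) ^ A.dim) (by positivity)
  choose Λ hΛ1 hΛ using fun v : Fin (r + 1) × Fin p =>
    exists_torus_two_pi σ hphi hrho hg v.1 v.2 (min δ ε) (lt_min hδ hε)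
  set C0 : ℝ := ∑ l, |Λ l| + 2 with hC0
  have hΛC : ∀ l, Λ l ≤ C0 := by
    intro l
    have h1 := Finset.single_le_sum (f := fun T => |Λ T|) (fun T _ => abs_nonneg _)
      (Finset.mem_univ l)
    have h2 := le_abs_self (Λ l)
    have h3 : |Λ l| ≤ ∑ l, |Λ l| := h1
    linarith
  have hsum : 0 ≤ ∑ l, |Λ l| := Finset.sum_nonneg fun J _ => abs_nonneg _
  refine ⟨C0, by linarith, fun lam hlam => ?_⟩
  choose Γ hΓ1 hΓ2 using fun l => hΛ l lam ((hΛC l).trans hlam)
  have hlog : 0 < Real.log ‖σ lam‖ := Real.log_pos (by linarith)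
  set T : Fin (r + 1) × Fin p → Fin (r + 1) × Fin p → ℝ := fun v v' =>
    (Γ v).reg (symb ![A.uy lam v'.1, A.ux lam v'.2]) / (-Real.log ‖σ lam‖) with hT
  have hT1 : ∀ v v', |T v v' - (if v' = v then 2 * Real.pi else 0)| ≤ min δ ε := by
    intro v v'
    have h1 := hΓ2 v v'.1 v'.2
    refine le_trans (le_of_eq ?_) h1
    rw [hT]
    congr 2
    by_cases h : v' = v
    · rw [if_pos h, if_pos ⟨by rw [h], by rw [h]⟩]
    · rw [if_neg h, if_neg fun h2 => h (Prod.ext h2.1 h2.2)]
  have hregT : ∀ v (n : Fin (r + 1) → Fin p → ℚ), (Γ v).reg (A.cl lam n) =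
      -Real.log ‖σ lam‖ * ∑ v' : Fin (r + 1) × Fin p, (n v'.1 v'.2 : ℝ) * T v v' := by
    intro v n
    rw [reg_cl, Finset.mul_sum]
    refine Finset.sum_congr rfl fun v' _ => ?_
    rw [hT]
    field_simp
  refine ⟨fun i k => Γ (i, k), fun i k => hΓ1 (i, k), fun i k n => ?_, fun B hB S => ?_⟩
  · rw [hregT, ← Fintype.sum_prod_type' (f := fun j l => |(n j l : ℝ)|)]
    have e1 : 2 * Real.pi * (n i k : ℝ) = ∑ v' : Fin (r + 1) × Fin p, (n v'.1 v'.2 : ℝ) *
        (if v' = (i, k) then 2 * Real.pi else 0) := by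
      rw [Finset.sum_eq_single (i, k)]
      · rw [if_pos rfl, mul_comm]
      · intro v _ hv
        rw [if_neg hv, mul_zero]
      · intro h
        exact absurd (Finset.mem_univ _) h
    have e2 : -Real.log ‖σ lam‖ * (∑ v' : Fin (r + 1) × Fin p,
        (n v'.1 v'.2 : ℝ) * T (i, k) v') / Real.log ‖σ lam‖ =
        -∑ v' : Fin (r + 1) × Fin p, (n v'.1 v'.2 : ℝ) * T (i, k) v' := by
      field_simp
    rw [e2, e1, neg_add_eq_sub, ← Finset.sum_sub_distrib, Finset.mul_sum]
    refine (Finset.abs_sum_le_sum_abs _ _).trans (Finset.sum_le_sum fun v _ => ?_)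
    rw [← mul_sub, abs_mul, mul_comm, abs_sub_comm]
    exact mul_le_mul_of_nonneg_right ((hT1 _ _).trans (min_le_right _ _)) (abs_nonneg _)
  · -- the determinant for `B` is the determinant for `B0`
    have hcol : ∀ c : Fin A.dim → ℤ, (∀ v : Fin (r + 1) × Fin p,
        ∑ m, c m * B0 m v.1 v.2 = 0) → c = 0 := by
      intro c hc
      obtain ⟨S0, hS0⟩ := exists_cotree A
      have h1 := abs_det_one' hS0 hB0
      by_contra hne
      have h2 : (Matrix.of fun l m => B0 m (S0 l).1 (S0 l).2).det = 0 := by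
        rw [← Matrix.exists_mulVec_eq_zero_iff]
        refine ⟨c, hne, funext fun l => ?_⟩
        show ∑ m, B0 m (S0 l).1 (S0 l).2 * c m = 0
        rw [← hc (S0 l)]
        exact Finset.sum_congr rfl fun m _ => mul_comm _ _
      rw [h2] at h1
      simp at h1
    obtain ⟨U, hU1, hU2⟩ := exists_change hB0.isLat hB.isLat hcol
    have h1 : (Matrix.of fun l m => (Γ (S l)).reg (A.cl lam fun i k => (B m i k : ℚ))) =
        -Real.log ‖σ lam‖ • ((Matrix.of fun l m => ∑ v' : Fin (r + 1) × Fin p,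
          ((B0 m v'.1 v'.2 : ℤ) : ℝ) * T (S l) v') * U.map (Int.castRingHom ℝ)) := by
      ext l m
      rw [Matrix.of_apply, hregT, Matrix.smul_apply, Matrix.mul_apply, smul_eq_mul]
      congr 1
      have e3 : ∀ j, (Matrix.of fun l m => ∑ v' : Fin (r + 1) × Fin p,
          ((B0 m v'.1 v'.2 : ℤ) : ℝ) * T (S l) v') l j * (U.map (Int.castRingHom ℝ)) j m =
          ∑ v' : Fin (r + 1) × Fin p,
            ((B0 j v'.1 v'.2 : ℤ) : ℝ) * T (S l) v' * ((U j m : ℤ) : ℝ) := by
        intro j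
        rw [← Finset.sum_mul]
        rfl
      rw [Finset.sum_congr rfl fun j _ => e3 j, Finset.sum_comm]
      refine Finset.sum_congr rfl fun v _ => ?_
      have h2 : B m v.1 v.2 = ∑ j, B0 j v.1 v.2 * U j m := hU2 m v
      rw [h2, Rat.cast_intCast, Int.cast_sum, Finset.sum_mul]
      refine Finset.sum_congr rfl fun j _ => ?_
      push_cast
      ring
    have hUdet : |(U.map (Int.castRingHom ℝ)).det| = 1 := by
      rw [← RingHom.mapMatrix_apply, ← RingHom.map_det, eq_intCast, ← Int.cast_abs, hU1,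
        Int.cast_one]
    have h3 : |(Matrix.of fun l m => (Γ (S l)).reg (A.cl lam fun i k => (B m i k : ℚ))).det| /
        (2 * Real.pi * Real.log ‖σ lam‖) ^ A.dim =
        |(Matrix.of fun l m => ∑ v' : Fin (r + 1) × Fin p,
          ((B0 m v'.1 v'.2 : ℤ) : ℝ) * T (S l) v').det| / (2 * Real.pi) ^ A.dim := by
      rw [h1, Matrix.det_smul, Matrix.det_mul, abs_mul, abs_mul, hUdet, mul_one, abs_pow, abs_neg,
        abs_of_pos hlog, Fintype.card_fin, mul_pow]
      have : 0 < Real.log ‖σ lam‖ ^ A.dim := by positivity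
      field_simp
    have h4 := hdet T (fun v v' => (hT1 v v').trans (min_le_left _ _)) S
    have h5 : (Matrix.of fun l m => 2 * Real.pi * ((B0 m (S l).1 (S l).2 : ℤ) : ℝ)).det =
        (2 * Real.pi) ^ A.dim * (((Matrix.of fun l m => B0 m (S l).1 (S l).2).det : ℤ) : ℝ) := by
      have e : (Matrix.of fun l m => 2 * Real.pi * ((B0 m (S l).1 (S l).2 : ℤ) : ℝ)) =
          (2 * Real.pi) • ((Matrix.of fun l m => B0 m (S l).1 (S l).2).map
            (Int.castRingHom ℝ)) := by
        ext l m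
        rfl
      rw [e, Matrix.det_smul, Fintype.card_fin, ← RingHom.mapMatrix_apply, ← RingHom.map_det]
      rfl
    rw [h5] at h4
    have h6 : |(|(Matrix.of fun l m => ∑ v' : Fin (r + 1) × Fin p,
          ((B0 m v'.1 v'.2 : ℤ) : ℝ) * T (S l) v').det| / (2 * Real.pi) ^ A.dim) -
          (|(((Matrix.of fun l m => B0 m (S l).1 (S l).2).det : ℤ) : ℝ)|)| ≤ ε := by
      have e : |(((Matrix.of fun l m => B0 m (S l).1 (S l).2).det : ℤ) : ℝ)| =
          |(2 * Real.pi) ^ A.dim * (((Matrix.of fun l m => B0 m (S l).1 (S l).2).det : ℤ) : ℝ)| /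
            (2 * Real.pi) ^ A.dim := by
        rw [abs_mul, abs_of_pos hpd]
        field_simp
      rw [e, ← sub_div, abs_div, abs_of_pos hpd, div_le_iff₀ hpd]
      exact (abs_abs_sub_abs_le _ _).trans h4.le
    rw [← h3] at h6
    refine ⟨fun hS => ?_, fun hS => ?_⟩
    · have h7 := abs_det_one' hS hB0
      rw [← Int.cast_abs, h7, Int.cast_one] at h6
      exact h6
    · have h7 := det_zero' hS hB0
      rw [h7, Int.cast_zero, abs_zero, sub_zero] at h6
      exact (le_abs_self _).trans h6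

end main

end Pool.Agent.X321.GC
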